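import Mathlib
import Pool.Graph.R_seed8.Helper509.SphDefs
import Pool.Graph.R_seed8.Helper509.Semi
import Pool.Graph.R_seed8.Helper509.Emp
import Pool.Agent.KS6_75.SI.Main

set_option autoImplicit false

/-!
# The functions `f_n` of spherical integrals and the R-transform: failure at every point

All definitions (`sphInt`, `fn`, `Admissible`, `CompactProb`, `FreelyInfDiv`, `IsRContinuation`) are the
ones of the library, see `Pool.Graph.R_seed8.Helper509.SphDefs`.

* Off the imaginary axis the limit of `f_n(z)` is not determined by the limit law `μ`, for any law `μ`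
  at all: with one outlier `c` of the sign of `Re z` and of large absolute value one has
  `f_n(z) → c - 1/z`.
* On the imaginary axis, for every point `z = i y` there are a semicircle law and an admissible sequence
  for which `f_n(z)` does not converge to `R(z)`.

So the convergence asked for in Q1 is not guaranteed at any point of the upper half-plane.

Proofs. With `X = (U* E U)_{00}` and the eigenvalues `e_j` one has the identity
`𝔼 (1 - s X)⁻ⁿ = ∏ (1 - s e_j)⁻¹` (integrate `exp (- |x|² + s ⟨E x, x⟩)` over `ℂⁿ` in two ways); it gives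
the power series of `I_n`, and with an outlier an exact main term with exponentially small relative
error. On the imaginary axis: if `f_n(i y)` were close to `i y` for all `y` in `[500, 2000]`, then
`I_n(i y) = 𝔼 exp (i n y X)` would be so small for `y` in `[1000, 2000]` that the extrapolation
`1 ≈ z^M ∑_{k < M} C(k + M - 1, k) (1 - z)^k`, `z = exp (i X / 32)`, gives `1 = I_n(0) < 1`. So for every
`n` there is a bad point `y_n` in `[500, 2000]`, and dilations of the matrices move these points to the
given one.
-/

namespace Pool.Agent.Results.MP_7cef9e_pr.EveryPoint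

open MeasureTheory Filter Topology Pool.Agent.Helper509.SphDefs Pool.Agent.Helper509.Semi
  Pool.Agent.Helper509.Emp Pool.Agent.KS6_75.SI

/-- **The convergence `f_n(z) → R(z)` is not guaranteed at any point of the upper half-plane.**

1. For every compactly supported law `μ` and every complex `z` with `Re z ≠ 0` there is `c₀` such that for
every real `c` with `|c| ≥ c₀` and of the same sign as `Re z` there is an admissible sequence `E_n` for
`μ` with `f_n(z) → c - 1/z`. In particular the limit is not determined by `μ`, and for a suitable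
admissible sequence it is not the value at `z` of (the continuation of) the R-transform.

2. For every point `z` of the upper half-plane there are a compactly supported freely infinitely
divisible law `μ`, with the analytic continuation `R` of its R-transform, and an admissible sequence for
`μ` such that `f_n(z)` does not converge to `R(z)`. -/
theorem result :
    (∀ μ : Measure ℝ, CompactProb μ → ∀ z : ℂ, z.re ≠ 0 →
      ∃ c₀ : ℝ, ∀ c : ℝ, c₀ ≤ |c| → 0 < c * z.re →
        ∃ E : ∀ n : ℕ, Matrix (Fin n) (Fin n) ℂ, Admissible E μ ∧
          Tendsto (fun n : ℕ => fn n (E n) z) atTop (𝓝 (c - 1 / z))) ∧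
    ∀ z : ℂ, 0 < z.im → ∃ (μ : Measure ℝ) (R : ℂ → ℂ), CompactProb μ ∧ FreelyInfDiv μ ∧
      IsRContinuation μ R ∧ ∃ E : ∀ n : ℕ, Matrix (Fin n) (Fin n) ℂ, Admissible E μ ∧
        ¬ Tendsto (fun n : ℕ => fn n (E n) z) atTop (𝓝 (R z)) := by
  refine ⟨fun μ hμ z hz => off_axis hμ hz, fun z hz => ?_⟩
  by_cases h : z.re = 0
  · obtain ⟨c, hc, E, hE, hn⟩ := on_axis hz
    have hR : IsRTransform (semicircle.map fun x => c * x) (fun z => (c : ℂ) * (c * z)) :=
      isRTransform_map isRTransform_semicircle hc
    refine ⟨_, fun z => (c : ℂ) * (c * z), compactProb_map compactProb_semicircle hc,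
      freelyInfDiv_map freelyInfDiv_semicircle hc, ⟨?_, _, hR, Eventually.of_forall fun _ => rfl⟩,
      E, hE, ?_⟩
    · exact ((differentiable_id.const_mul _).const_mul _).differentiableOn
    · have e : z = Complex.I * (z.im : ℂ) := by
        apply Complex.ext <;> simp [h]
      rw [e]
      simpa using hn
  · obtain ⟨c₀, hc₀⟩ := off_axis compactProb_semicircle h
    refine ⟨semicircle, fun z => z, compactProb_semicircle, freelyInfDiv_semicircle,
      ⟨differentiableOn_id, _, isRTransform_semicircle, Eventually.of_forall fun _ => rfl⟩, ?_⟩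
    obtain ⟨c, hc1, hc2, hc3⟩ : ∃ c : ℝ, c₀ ≤ |c| ∧ 0 < c * z.re ∧ (c : ℂ) - 1 / z ≠ z := by
      set k : ℝ := max (max c₀ 1) (‖z + 1 / z‖ + 1) with hk
      have hk1 : c₀ ≤ k := (le_max_left _ _).trans (le_max_left _ _)
      have hk2 : 0 < k := lt_of_lt_of_le one_pos ((le_max_right c₀ 1).trans (le_max_left _ _))
      have hk3 : ‖z + 1 / z‖ < k := lt_of_lt_of_le (lt_add_one _) (le_max_right _ _)
      have key : ∀ c : ℝ, |c| = k → (c : ℂ) - 1 / z ≠ z := by
        intro c hc hcon
        have h1 : (c : ℂ) = z + 1 / z := by linear_combination hcon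
        have h2 : ‖(c : ℂ)‖ = k := by rw [Complex.norm_real, Real.norm_eq_abs, hc]
        rw [h1] at h2
        linarith
      rcases lt_or_gt_of_ne h with h0 | h0
      · exact ⟨-k, by rw [abs_neg, abs_of_pos hk2]; exact hk1, by nlinarith,
          key _ (by rw [abs_neg, abs_of_pos hk2])⟩
      · exact ⟨k, by rw [abs_of_pos hk2]; exact hk1, by positivity, key _ (abs_of_pos hk2)⟩
    obtain ⟨E, hE, hl⟩ := hc₀ c hc1 hc2
    exact ⟨E, hE, fun hcon => hc3 (tendsto_nhds_unique hl hcon)⟩

end Pool.Agent.Results.MP_7cef9e_pr.EveryPoint
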